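import Pool.Agent.H669.PS.Pts

/-! # The primes in short intervals and the starting points of dense windows

`count A x H` is the number of elements of `A` in `(x, x + H]`.  For `μ > 0` let `dense A μ` be the
set of the integers `n` for which some window `(n, n + h]`, `h > 0` arbitrary, contains more than
`μ h / log n` elements of `A`; so after an integer of the complement the primes are in no window
more than `μ` times as frequent as on average.

1. (Balance: all sets, all scales.)  Between any two integers `z ≤ w` outside `dense A μ` the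
   elements of `A` and the elements of `dense A μ` are balanced: there are `μ / log` times as many
   of the former as of the latter, with the factors `μ / log w` and `μ / (log z - μ)`.
2. (Every interval of length `x ^ ε`.)  Let `0 < ε ≤ 1` and `μ > 2 / ε`.  For all sets `A` of primes
   and in all intervals `(x, x + H]`, `x ^ ε ≤ H ≤ x`, `x` large, the proportion of the points of
   `dense A μ` is `1 / μ` times the local density `count A x H * log x / H`, up to
   `5 (μ + 1) ^ 2 / (μ log x)`.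
3. (The asymptotic formula.)  Let `A` be any set, `κ ≥ 0`, `θ ≥ 0`, and let `μ > κ` be one
   fixed number.  The asymptotic formula `count A x H ~ κ H / log x`, uniformly for
   `x ^ ε ≤ H ≤ x`, for every `ε > θ`, holds if and only if `dense A μ` has the proportion `κ / μ` in
   all these intervals.  For the primes, `κ = 1` and `θ = 0`, the left side is Q1.
4. (One point in each interval.)  It also holds if and only if for every `δ > 0` each of these
   intervals with large `x` contains an integer none of whose windows `(n, n + h]` is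
   `(κ + δ)`-dense, and one none of whose windows `[n, n + h]`, `h ≤ n`, has fewer than
   `(κ - δ) h / log n` elements. -/

set_option autoImplicit false

namespace Pool.Agent.Results.MP_31d0eb_nt.DenseWindows

/-- the number of elements of `A` in `(x, x + H]` -/
noncomputable def count (A : Set ℕ) (x H : ℝ) : ℝ :=
  ({a : ℕ | a ∈ A ∧ x < a ∧ (a : ℝ) ≤ x + H}.ncard : ℝ)

/-- the integers `n` for which some window `(n, n + h]` contains more than `μ h / log n`
elements of `A` -/
def dense (A : Set ℕ) (μ : ℝ) : Set ℕ :=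
  {n : ℕ | ∃ h : ℝ, 0 < h ∧ μ * h / Real.log n < count A n h}

/-- the integers `n` for which some window `[n, n + h]`, `h ≤ n`, contains fewer than
`μ h / log n` elements of `A` -/
def sparse (A : Set ℕ) (μ : ℝ) : Set ℕ :=
  {n : ℕ | ∃ h : ℝ, 0 < h ∧ h ≤ n ∧ count A ((n : ℝ) - 1) (h + 1) < μ * h / Real.log n}

/-- the number of elements of `A` is `κ H / log x`, asymptotically, in all intervals `(x, x + H]`
with `x ^ ε ≤ H ≤ x` -/
def Asymptotic (A : Set ℕ) (κ ε : ℝ) : Prop :=
  ∀ δ : ℝ, 0 < δ → ∃ X : ℝ, ∀ x H : ℝ, X ≤ x → x ^ ε ≤ H → H ≤ x →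
    |count A x H * Real.log x / H - κ| ≤ δ

/-- the elements of `dense A μ` have the proportion `κ / μ`, asymptotically, in all intervals
`(x, x + H]` with `x ^ ε ≤ H ≤ x` -/
def Law (A : Set ℕ) (κ μ ε : ℝ) : Prop :=
  ∀ δ : ℝ, 0 < δ → ∃ X : ℝ, ∀ x H : ℝ, X ≤ x → x ^ ε ≤ H → H ≤ x →
    |count (dense A μ) x H / H - κ / μ| ≤ δ

/-- for every `δ > 0`, all intervals `(x, x + H]` with `x ^ ε ≤ H ≤ x`, `x` large, contain an
integer outside `dense A (κ + δ)` and an integer outside `sparse A (κ - δ)` -/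
def Points (A : Set ℕ) (κ ε : ℝ) : Prop :=
  ∀ δ : ℝ, 0 < δ → ∃ X : ℝ, ∀ x H : ℝ, X ≤ x → x ^ ε ≤ H → H ≤ x →
    (∃ n : ℕ, x < n ∧ (n : ℝ) ≤ x + H ∧ n ∉ dense A (κ + δ)) ∧
    (∃ n : ℕ, x < n ∧ (n : ℝ) ≤ x + H ∧ n ∉ sparse A (κ - δ))

theorem result :
    -- the balance, for all sets and all pairs of integers which start no dense window
    (∀ (A : Set ℕ) (μ : ℝ), 0 < μ → ∀ z w : ℕ, 2 ≤ z → z ≤ w →
      z ∉ dense A μ → w ∉ dense A μ →
        μ * count (dense A μ) z (w - z) ≤ count A z (w - z) * Real.log w ∧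
        count A z (w - z) * (Real.log z - μ) ≤ μ * count (dense A μ) z (w - z)) ∧
    -- every interval of length `x ^ ε`, all sets of primes
    (∀ ε μ : ℝ, 0 < ε → 2 / ε < μ → ∃ X : ℝ, ∀ A : Set ℕ, (∀ p ∈ A, p.Prime) →
      ∀ x H : ℝ, X ≤ x → x ^ ε ≤ H → H ≤ x →
        |μ * count (dense A μ) x H - count A x H * Real.log x| ≤
          5 * (μ + 1) ^ 2 * (H / Real.log x)) ∧
    -- the asymptotic formula is equivalent to the law for one `μ`
    (∀ (A : Set ℕ) (κ μ θ : ℝ), 0 ≤ κ → κ < μ → 0 ≤ θ →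
      ((∀ ε, θ < ε → ε ≤ 1 → Asymptotic A κ ε) ↔ (∀ ε, θ < ε → ε ≤ 1 → Law A κ μ ε))) ∧
    -- and to the existence of good points in all intervals
    (∀ (A : Set ℕ) (κ θ : ℝ), 0 ≤ κ → 0 ≤ θ →
      ((∀ ε, θ < ε → ε ≤ 1 → Asymptotic A κ ε) ↔ (∀ ε, θ < ε → ε ≤ 1 → Points A κ ε))) := by
  refine ⟨fun A μ hμ z w h2 hzw hz hw => ?_, fun ε μ hε hμ => ?_,
    fun A κ μ θ hκ hμ hθ => ⟨?_, ?_⟩, fun A κ θ hκ hθ => ⟨?_, ?_⟩⟩
  · have e1 := Pool.Agent.H669.PS.count_nat (Pool.Agent.H669.PS.dense A μ) hzw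
    have e2 := Pool.Agent.H669.PS.count_nat A hzw
    have b1 := Pool.Agent.H669.PS.balance_lower hμ h2 hzw hz hw
    have b2 := Pool.Agent.H669.PS.balance_upper hμ h2 hzw hz hw
    rw [← e1, ← e2] at b1 b2
    exact ⟨b1, b2⟩
  · obtain ⟨X, hX⟩ := Pool.Agent.H669.PS.law_all ε μ hε hμ
    exact ⟨X, fun A hA x H h1 h2 h3 => hX A hA x H h1 h2 h3⟩
  · exact Pool.Agent.H669.PS.law_of_asym hκ hμ hθ
  · exact Pool.Agent.H669.PS.asym_of_law hκ hμ hθ
  · exact Pool.Agent.H669.PS.points_of_asym hκ hθ
  · exact Pool.Agent.H669.PS.asym_of_points hκ hθ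

end Pool.Agent.Results.MP_31d0eb_nt.DenseWindows
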