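import Pool.Agent.H204.AS.Unif

open MeasureTheory Set Filter Topology
open scoped ENNReal ComplexConjugate

namespace Pool.Agent.Results.MP_31d0eb_nt.ExponentsOfTheLaw

/-!
# The exponents for which the primes in short intervals obey the asymptotic law

Q1 asks whether `π(x, H) ∼ H / log x` uniformly in `x ^ ε ≤ H ≤ x`, for every `ε > 0`. In the
model of Beurling's generalised primes it is shown for exactly which sets of exponents `ε` this
law can hold, if the Riemann hypothesis (or any other finite set of zeros to the right of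
`1 / 2`), the Lindelöf bound, square-root error terms in the counting functions of the
generalised integers and of the generalised primes, and even the law in almost all intervals of
all lengths `H ≥ A log x`, with an exceptional set of measure `O(X ^ (1/2 + δ))`, are given. The
construction uses the engine of helper521 (`Pool.Agent.H521`).
-/

/-- A sequence of (Beurling) generalised primes `1 < p 0 < p 1 < ⋯ → ∞`. -/
structure GenPrimes (p : ℕ → ℝ) : Prop where
  one_lt : 1 < p 0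
  strictMono : StrictMono p
  tendsto : Tendsto p atTop atTop

/-- The generalised integer `∏ p_j ^ (e j)` with exponent vector `e`. -/
noncomputable def genInt (p : ℕ → ℝ) (e : ℕ →₀ ℕ) : ℝ := e.prod fun j k => p j ^ k

/-- `N_P(x)`, the number of generalised integers `≤ x`, counted with multiplicity. -/
noncomputable def countInts (p : ℕ → ℝ) (x : ℝ) : ℕ := Set.ncard {e : ℕ →₀ ℕ | genInt p e ≤ x}

/-- `π_P(x)`, the number of generalised primes `≤ x`. -/
noncomputable def countPrimes (p : ℕ → ℝ) (x : ℝ) : ℕ := Set.ncard {j : ℕ | p j ≤ x}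

/-- The zeta function `ζ_P(s) = ∑ n^{-s}` over the generalised integers. -/
noncomputable def zetaP (p : ℕ → ℝ) (s : ℂ) : ℂ := ∑' e : ℕ →₀ ℕ, ((genInt p e : ℝ) : ℂ) ^ (-s)

/-- The main term `∫_2^x (1 - ∑_{ρ ∈ Z} Re u^{ρ-1}) du / log u` of the prime counting function,
that is `li x - ∑_ρ li x^ρ` up to a constant, for a finite multiset `Z` of zeros. -/
noncomputable def primeMain (Z : Multiset ℂ) (x : ℝ) : ℝ :=
  ∫ u in (2 : ℝ)..x, (1 - (Z.map fun ρ => ((u : ℂ) ^ (ρ - 1)).re).sum) / Real.log u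

/-- `p` is a system of generalised primes whose zeta function continues to `Re s > 1/2`
with only a simple pole at `1`, with zeros exactly `Z` there (with multiplicity) and with the
Lindelöf bound, and with square-root error terms in the counting of generalised integers and
of generalised primes.  For `Z = 0` this is the Riemann hypothesis for `p`. -/
structure System (Z : Multiset ℂ) (p : ℕ → ℝ) : Prop where
  primes : GenPrimes p
  summable : ∀ s : ℂ, 1 < s.re → Summable fun e : ℕ →₀ ℕ => ((genInt p e : ℝ) : ℂ) ^ (-s)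
  zeta : ∃ g : ℂ → ℂ, DifferentiableOn ℂ g {s : ℂ | 1 / 2 < s.re} ∧
    (∀ s : ℂ, 1 < s.re → (s - 1) * zetaP p s = (Z.map fun ρ => s - ρ).prod * Complex.exp (g s)) ∧
    ∀ ε : ℝ, 0 < ε → ∃ C : ℝ, ∀ s : ℂ, 1 / 2 + ε ≤ s.re →
      ‖(Z.map fun ρ => s - ρ).prod * Complex.exp (g s)‖ ≤ C * (1 + ‖s‖) ^ (1 + ε)
  ints : ∃ κ : ℝ, 0 < κ ∧ ∀ ε : ℝ, 0 < ε → ∃ C : ℝ, ∀ x : ℝ, 1 ≤ x →
    |(countInts p x : ℝ) - κ * x| ≤ C * x ^ (1 / 2 + ε)
  pnt : ∀ ε : ℝ, 0 < ε → ∃ C : ℝ, ∀ x : ℝ, 2 ≤ x →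
    |(countPrimes p x : ℝ) - primeMain Z x| ≤ C * x ^ (1 / 2 + ε)

/-- The exceptional points: the `x ≥ 2` such that, for some `H` between `A log x` and `x`, the
number of primes in `(x, x + H]` differs from `H / log x` by more than `ε H / log x`. -/
def exceptional (p : ℕ → ℝ) (ε A : ℝ) : Set ℝ :=
  {x | 2 ≤ x ∧ ∃ H, A * Real.log x ≤ H ∧ H ≤ x ∧
    ε * (H / Real.log x) < |((countPrimes p (x + H) : ℝ) - countPrimes p x) - H / Real.log x|}

/-- The law in almost all short intervals: for every `ε > 0` there is `A` such that the set of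
the points `x` which are exceptional for `ε`, `A` has measure `O(X ^ (1/2 + δ))` up to `X`, for
every `δ > 0`. -/
def AlmostAll (p : ℕ → ℝ) : Prop := ∀ ε : ℝ, 0 < ε → ∃ A : ℝ, ∀ δ : ℝ, 0 < δ → ∃ K : ℝ,
  ∀ X : ℝ, 1 ≤ X → volume (exceptional p ε A ∩ Iic X) ≤ ENNReal.ofReal (K * X ^ (1 / 2 + δ))

/-- The asymptotic law of Q1 at the exponent `ε`:
`sup_{x^ε ≤ H ≤ x} |(π_P(x + H) - π_P(x)) log x / H - 1| → 0`. -/
def UniformLaw (p : ℕ → ℝ) (ε : ℝ) : Prop :=
  ∀ δ : ℝ, 0 < δ → ∀ᶠ x in atTop, ∀ H : ℝ, x ^ ε ≤ H → H ≤ x →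
    |((countPrimes p (x + H) : ℝ) - countPrimes p x) * Real.log x / H - 1| ≤ δ

/-- The exponents `ε` in `(0, 1)` at which the law of Q1 holds. -/
def lawExponents (p : ℕ → ℝ) : Set ℝ := {ε | 0 < ε ∧ ε < 1 ∧ UniformLaw p ε}

/-- The ratio of `π_P(x + x^θ) - π_P(x)` and its expected size `x^θ / log x`. -/
noncomputable def density (p : ℕ → ℝ) (θ x : ℝ) : ℝ≥0∞ :=
  ENNReal.ofReal (((countPrimes p (x + x ^ θ) : ℝ) - countPrimes p x) / (x ^ θ / Real.log x))

open Pool.Agent.H521 Pool.Agent.H521.G Pool.Agent.H204.SI Pool.Agent.H204.AS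

/-- **Theorem.** For a set `E` of exponents the following are equivalent: (1) there is a system
of generalised primes with zeros `Z`, with the law in almost all intervals, for which the law of Q1
holds exactly at the exponents in `E`, while at all others the intervals `(x, x + x^θ]` have lower
density `0` and upper density `∞`; (2) there is a system with zeros `Z` for which the law of Q1
holds exactly at the exponents in `E`; (3) `E` is `(e, 1)` with `0 ≤ e ≤ 1/2`, or `[e, 1)` with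
`0 < e ≤ 1/2`. -/
theorem result (Z : Multiset ℂ) (hZ : ∀ ρ ∈ Z, 1 / 2 < ρ.re ∧ ρ.re < 1) (hZc : Z.map conj = Z)
    (E : Set ℝ) : List.TFAE [
      ∃ p : ℕ → ℝ, System Z p ∧ AlmostAll p ∧ lawExponents p = E ∧
        ∀ θ : ℝ, 0 < θ → θ < 1 → θ ∉ E →
          liminf (density p θ) atTop = 0 ∧ limsup (density p θ) atTop = ∞,
      ∃ p : ℕ → ℝ, System Z p ∧ lawExponents p = E,
      (∃ e : ℝ, 0 ≤ e ∧ e ≤ 1 / 2 ∧ E = Ioo e 1) ∨ ∃ e : ℝ, 0 < e ∧ e ≤ 1 / 2 ∧ E = Ico e 1] := by
  have hZ1 : ∀ ρ ∈ Z, ρ.re < 1 := fun ρ h => (hZ ρ h).2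
  tfae_have 1 → 2 := fun ⟨p, hS, _, h, _⟩ => ⟨p, hS, h⟩
  tfae_have 2 → 3 := by
    rintro ⟨p, hS, rfl⟩
    have hpt := hS.primes.tendsto
    have hbig : ∀ t : ℝ, 1 / 2 < t → t < 1 → t ∈ lawExponents p := fun t h0 h1 =>
      ⟨by linarith, h1, (unif_iff hpt (by norm_num : (0 : ℝ) ≤ 1 / 2)).2
        (fun a ha ha1 => one_of_bounds fun ε hε => ratio_one hZ1 hS.pnt ha ha1.le hε) t h0 h1⟩
    have hbdd : BddBelow (lawExponents p) := ⟨0, fun t ht => ht.1.le⟩
    have hne : (lawExponents p).Nonempty := ⟨3 / 4, hbig _ (by norm_num) (by norm_num)⟩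
    set e : ℝ := sInf (lawExponents p) with he
    have he0 : 0 ≤ e := le_csInf hne fun t ht => ht.1.le
    have he1 : e ≤ 1 / 2 := by
      apply le_of_forall_gt_imp_ge_of_dense
      intro t ht
      rcases lt_or_ge t 1 with h1 | h1
      · exact csInf_le hbdd (hbig t ht h1)
      · have := csInf_le hbdd (hbig (3 / 4) (by norm_num) (by norm_num))
        linarith
    have hup : ∀ t, e < t → t < 1 → t ∈ lawExponents p := by
      intro t ht ht1
      obtain ⟨s, hs, hst⟩ := exists_lt_of_csInf_lt hne ht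
      exact ⟨by linarith [hs.1], ht1, unif_mono hst.le hs.2.2⟩
    by_cases hmem : e ∈ lawExponents p
    · refine Or.inr ⟨e, hmem.1, he1, Set.ext fun t => ⟨fun ht => ⟨csInf_le hbdd ht, ht.2.1⟩, ?_⟩⟩
      rintro ⟨h1, h2⟩
      rcases eq_or_lt_of_le h1 with h | h
      · rw [← h]; exact hmem
      · exact hup t h h2
    · refine Or.inl ⟨e, he0, he1, Set.ext fun t => ⟨fun ht => ⟨?_, ht.2.1⟩, fun ht => hup t ht.1 ht.2⟩⟩
      rcases eq_or_lt_of_le (csInf_le hbdd ht) with h | h
      · exact absurd (by rw [he, h]; exact ht) hmem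
      · exact h
  tfae_have 3 → 1 := by
    rintro (⟨e, he0, he1, rfl⟩ | ⟨e, he0, he1, rfl⟩)
    · obtain ⟨p, hS, hA, h1, h2⟩ := exists_Ioo hZ1 hZc he0 he1
      refine ⟨p, ⟨⟨by linarith [hS.three_le 0], hS.mono, hS.tendsto⟩, hS.summable, hS.zeta,
        hS.ints, hS.pnt⟩, hA, Set.ext fun t => ⟨?_, ?_⟩, fun t ht0 ht1 hE => ?_⟩
      · rintro ⟨ht0, ht1, hu⟩
        refine ⟨?_, ht1⟩
        by_contra hc
        have h3 := (h1 t ht0 (not_lt.1 hc)).1
        rw [(unif_one ht1.le hu).1] at h3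
        exact one_ne_zero h3
      · rintro ⟨ht0, ht1⟩
        exact ⟨by linarith, ht1, (unif_iff hS.tendsto he0).2 h2 t ht0 ht1⟩
      · exact h1 t ht0 (by
          by_contra hc
          exact hE ⟨not_le.1 hc, ht1⟩)
    · obtain ⟨p, hS, hA, h1, h2⟩ := exists_Ico hZ1 hZc he0 he1
      refine ⟨p, ⟨⟨by linarith [hS.three_le 0], hS.mono, hS.tendsto⟩, hS.summable, hS.zeta,
        hS.ints, hS.pnt⟩, hA, Set.ext fun t => ⟨?_, ?_⟩, fun t ht0 ht1 hE => ?_⟩
      · rintro ⟨ht0, ht1, hu⟩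
        refine ⟨?_, ht1⟩
        by_contra hc
        have h3 := (h1 t ht0 (not_le.1 hc)).1
        rw [(unif_one ht1.le hu).1] at h3
        exact one_ne_zero h3
      · rintro ⟨ht0, ht1⟩
        exact ⟨by linarith, ht1, unif_mono ht0 h2⟩
      · exact h1 t ht0 (by
          by_contra hc
          exact hE ⟨not_lt.1 hc, ht1⟩)
  tfae_finish

end Pool.Agent.Results.MP_31d0eb_nt.ExponentsOfTheLaw
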