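import Mathlib
import Pool.Agent.H532.RM.Low2
import Pool.Agent.H532.SR.Uni
import Pool.Agent.H532.SR.LowB

/-!
# The phase diagram for the elements of short intervals in the random sieve model

In the model of Banks, Ford and Tao (Large prime gaps and probabilistic models, Invent. Math. 2023)
the primes are replaced by the random set `R` of the integers `n` which are outside the random
residue class `a_p` modulo `p` for all primes `p ≤ z(n)`, `∏_{p ≤ z(n)} (1 - 1/p) ≈ 1 / log n`.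
In contrast to Cramér's model it takes the divisibility by small primes into account.

Let `N(x, H) = #(R ∩ (x, x + H])` and `F(x, H) = N(x, H) log x / H`. The theorem describes, almost
surely, the extreme values for `X ≤ x ≤ 2 X` in all ranges from `log X` to `X`.

* For `K log X ≤ H ≤ κ (log X)²` the maximum of `N(x, H)` is `log X / log ((log X)² / H)`, up to
  the factor `1 ± δ` (`K`, `κ` depend on `δ` only). This is the law conjectured for the primes by
  Granville and Lumley.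
* For `δ (log X)² ≤ H ≤ X` both extremes of `F(x, H)` are given, up to `δ`, by one formula: if `M`
  and `m` are the normalised extremes of the interval sieve by the primes up to `log X`, and
  `H = λ (log X)²`, then the maximum is the largest `K ≥ M` with `λ (K log (K / M) - K + M) ≤ 1`
  and the minimum is the smallest `K ≤ m` with `λ (K log (K / m) - K + m) ≤ 1`.
* `M` and `m` are bounded away from `1` for `H ≤ (log X) ^ N` (Maier's phenomenon), and tend to `1`
  for `H = (log X) ^ K`, `K → ∞`.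
* For a monotone function `h` the asymptotic law `F(x, H) → 1` holds uniformly in `h(x) ≤ H ≤ x`
  if and only if `log h(x) / loglog x → ∞`.
* For powers: `N(x, H) = ∫_x^{x+H} dt / log t + O(X ^ ε H ^ (1/2))` for all `X ≤ x ≤ 2 X` and all
  `1 ≤ H ≤ X`; and for `X ^ ε < H < X ^ (1/2 - ε)` this is best possible, the error is at least
  `(1/2) (H / log X) ^ (1/2)` for some `x`.

So the analogue of Q1 holds in the model, with the exact threshold, the exact irregularities below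
the threshold, and the square-root error term above it.

The proofs combine: windows with prescribed patterns modulo the primes up to `log X / loglog X`,
concentration for the primes up to `(log X) ^ 40`, large deviations and a truncated second moment
over the windows for the larger primes; a recursion over the primes and the moduli for all moments
of the number of the survivors (square-root law); and the mean square of `ψ` in short intervals of
the random primes (lower bound).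
-/

open Finset MeasureTheory ProbabilityTheory Filter
open scoped ENNReal Topology

namespace Pool.Agent.Results.MP_31d0eb_nt.PhaseDiagram

/-- `A p`, `p` prime, are independent random variables and `A p` is uniformly distributed on
`{0, …, p - 1}`. -/
structure RandomClasses {Ω : Type} [MeasurableSpace Ω] (μ : Measure Ω) (A : ℕ → Ω → ℕ) :
    Prop where
  meas : ∀ p, Measurable (A p)
  indep : iIndepFun (fun p : Nat.Primes => A p) μ
  unif : ∀ p : ℕ, p.Prime → ∀ r < p, μ {ω | A p ω = r} = (p : ℝ≥0∞)⁻¹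

/-- `V z = ∏_{p ≤ z} (1 - 1 / p)`. -/
noncomputable def V (z : ℕ) : ℝ := ∏ p ∈ (range (z + 1)).filter Nat.Prime, (1 - 1 / (p : ℝ))

/-- The integers `n` are sieved by the primes up to `z n`; this leaves the density `1 / log n`. -/
structure SievingLimit (z : ℕ → ℕ) : Prop where
  mono : Monotone z
  lim : Tendsto (fun n : ℕ => V (z n) * Real.log n) atTop (𝓝 1)

/-- The same with the relative error `O(n ^ (-1/2))`. -/
structure SharpSievingLimit (z : ℕ → ℕ) : Prop where
  mono : Monotone z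
  rate : ∃ K : ℝ, ∀ᶠ n : ℕ in atTop, |V (z n) * Real.log n - 1| ≤ K / Real.sqrt n

/-- The sieving limit of Banks, Ford and Tao: the largest `z` with `V z ≥ 1 / log n`. -/
noncomputable def banksFordTao (n : ℕ) : ℕ := sSup {z : ℕ | 1 / Real.log n ≤ V z}

/-- The random sieve: the integers `n` which are not congruent to `a p` modulo `p`, for all primes
`p ≤ z n`. -/
def sieved (z : ℕ → ℕ) (a : ℕ → ℕ) : Set ℕ :=
  {n | ∀ p : ℕ, p.Prime → p ≤ z n → ¬ n ≡ a p [MOD p]}

/-- The number of `n ∈ R` with `x < n ≤ x + H`. -/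
noncomputable def number (R : Set ℕ) (x H : ℝ) : ℝ :=
  ({n : ℕ | n ∈ R ∧ x < n ∧ (n : ℝ) ≤ x + H}.ncard : ℝ)

/-- `#{n ∈ R : x < n ≤ x + H} log x / H`. -/
noncomputable def density (R : Set ℕ) (x H : ℝ) : ℝ := number R x H * Real.log x / H

/-- The number of the integers `n`, `m < n ≤ m + U`, without prime factors `p ≤ ζ`. -/
def sifted (m U ζ : ℕ) : ℕ :=
  ((Ioc m (m + U)).filter (fun n => ∀ p ≤ ζ, p.Prime → ¬ p ∣ n)).card

/-- `max_m #{m < n ≤ m + U : n has no prime factor ≤ ζ}`, divided by `U ∏_{p ≤ ζ} (1 - 1 / p)`. -/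
noncomputable def maxSifted (U ζ : ℕ) : ℝ := ((⨆ m, sifted m U ζ : ℕ) : ℝ) / (U * V ζ)

/-- `min_m #{m < n ≤ m + U : n has no prime factor ≤ ζ}`, divided by `U ∏_{p ≤ ζ} (1 - 1 / p)`. -/
noncomputable def minSifted (U ζ : ℕ) : ℝ := ((⨅ m, sifted m U ζ : ℕ) : ℝ) / (U * V ζ)

/-- The rate function `K log (K / r) - K + r` of the Poisson distribution with mean `r`. -/
noncomputable def rate (K r : ℝ) : ℝ := K * Real.log (K / r) - K + r

/-- The largest `K ≥ r` with `λ (K log (K / r) - K + r) ≤ 1`. -/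
noncomputable def upperExtreme (lam r : ℝ) : ℝ := sSup {K | r ≤ K ∧ lam * rate K r ≤ 1}

/-- The smallest `K`, `0 ≤ K ≤ r`, with `λ (K log (K / r) - K + r) ≤ 1`. -/
noncomputable def lowerExtreme (lam r : ℝ) : ℝ := sInf {K | 0 ≤ K ∧ K ≤ r ∧ lam * rate K r ≤ 1}

lemma sifted_eq (m U ζ : ℕ) :
    sifted m U ζ = Pool.Agent.H532.RM.T1 (fun _ => 0) ζ m U := by
  unfold sifted Pool.Agent.H532.RM.T1
  congr 1
  ext n
  rw [Pool.Agent.H532.RM.mem_T1, mem_filter, mem_Ioc]
  constructor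
  · rintro ⟨h1, h2⟩
    refine ⟨h1, fun p hp h3 => ?_⟩
    rw [Nat.zero_mod] at h3
    have hp' := Pool.Agent.H532.RM.mem_primesLe.1 hp
    exact h2 p hp'.1 hp'.2 (Nat.dvd_of_mod_eq_zero h3)
  · rintro ⟨h1, h2⟩
    refine ⟨h1, fun p hp hpp h3 => ?_⟩
    have := h2 p (Pool.Agent.H532.RM.mem_primesLe.2 ⟨hp, hpp⟩)
    rw [Nat.zero_mod] at this
    exact this (Nat.mod_eq_zero_of_dvd h3)

lemma maxSifted_eq (U ζ : ℕ) : maxSifted U ζ = Pool.Agent.H532.RM.rp U ζ := by
  unfold maxSifted Pool.Agent.H532.RM.rp Pool.Agent.H532.RM.smax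
  simp only [sifted_eq]
  rfl

lemma minSifted_eq (U ζ : ℕ) : minSifted U ζ = Pool.Agent.H532.RM.rm U ζ := by
  unfold minSifted Pool.Agent.H532.RM.rm Pool.Agent.H532.RM.smin
  simp only [sifted_eq]
  rfl

/-- **The phase diagram for short intervals in the random sieve model.** -/
theorem result :
    -- the model exists
    (∃ μ : Measure (ℕ → ℕ), IsProbabilityMeasure μ ∧ RandomClasses μ (fun p ω => ω p)) ∧
    SievingLimit banksFordTao ∧ SharpSievingLimit banksFordTao ∧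
    -- the maximal number for `X ≤ x ≤ 2 X`, for `log X ≪ H = o((log X) ^ 2)`
    (∀ δ : ℝ, 0 < δ → ∃ K κ : ℝ, 0 < K ∧ 0 < κ ∧
      ∀ (Ω : Type) [MeasurableSpace Ω] (μ : Measure Ω)
      [IsProbabilityMeasure μ] (A : ℕ → Ω → ℕ), RandomClasses μ A → ∀ z : ℕ → ℕ,
      SievingLimit z → ∀ᵐ ω ∂μ, ∀ᶠ X : ℝ in atTop, ∀ H : ℝ,
      K * Real.log X ≤ H → H ≤ κ * Real.log X ^ 2 →
        (∀ x : ℝ, X ≤ x → x ≤ 2 * X →
          number (sieved z (fun p => A p ω)) x H ≤
            (1 + δ) * (Real.log X / Real.log (Real.log X ^ 2 / H))) ∧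
        (∃ x : ℝ, X ≤ x ∧ x ≤ 2 * X ∧
          (1 - δ) * (Real.log X / Real.log (Real.log X ^ 2 / H)) ≤
            number (sieved z (fun p => A p ω)) x H)) ∧
    -- one formula for the extreme values of the density, for `δ (log X) ^ 2 ≤ H ≤ X`
    (∀ δ : ℝ, 0 < δ → ∀ (Ω : Type) [MeasurableSpace Ω] (μ : Measure Ω)
      [IsProbabilityMeasure μ] (A : ℕ → Ω → ℕ), RandomClasses μ A → ∀ z : ℕ → ℕ,
      SievingLimit z → ∀ᵐ ω ∂μ, ∀ᶠ X : ℝ in atTop, ∀ H : ℝ,
      δ * Real.log X ^ 2 ≤ H → H ≤ X →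
        (∀ x : ℝ, X ≤ x → x ≤ 2 * X →
          lowerExtreme (H / Real.log X ^ 2) (minSifted ⌊H⌋₊ ⌊Real.log X⌋₊) - δ ≤
            density (sieved z (fun p => A p ω)) x H ∧
          density (sieved z (fun p => A p ω)) x H ≤
            upperExtreme (H / Real.log X ^ 2) (maxSifted ⌊H⌋₊ ⌊Real.log X⌋₊) + δ) ∧
        (∃ x : ℝ, X ≤ x ∧ x ≤ 2 * X ∧
          upperExtreme (H / Real.log X ^ 2) (maxSifted ⌊H⌋₊ ⌊Real.log X⌋₊) - δ ≤
            density (sieved z (fun p => A p ω)) x H) ∧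
        (∃ x : ℝ, X ≤ x ∧ x ≤ 2 * X ∧
          density (sieved z (fun p => A p ω)) x H ≤
            lowerExtreme (H / Real.log X ^ 2) (minSifted ⌊H⌋₊ ⌊Real.log X⌋₊) + δ)) ∧
    -- the extremes of the interval sieve are bounded away from `1` for `H ≤ (log X) ^ N`
    (∀ N : ℝ, ∃ c : ℝ, 0 < c ∧ ∀ᶠ ζ : ℕ in atTop, ∀ U : ℕ, 1 ≤ U → (U : ℝ) ≤ (ζ : ℝ) ^ N →
      1 + c ≤ maxSifted U ζ ∧ minSifted U ζ ≤ 1 - c) ∧
    -- and they tend to `1` for `H = (log X) ^ K`, `K → ∞`
    (∀ δ : ℝ, 0 < δ → ∃ K : ℕ, ∀ᶠ ζ : ℕ in atTop, ∀ U : ℕ, ζ ^ K ≤ U →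
      |maxSifted U ζ - 1| ≤ δ ∧ |minSifted U ζ - 1| ≤ δ) ∧
    -- the exact threshold for the uniform asymptotic law
    (∀ (Ω : Type) [MeasurableSpace Ω] (μ : Measure Ω) [IsProbabilityMeasure μ]
      (A : ℕ → Ω → ℕ), RandomClasses μ A → ∀ z : ℕ → ℕ, SievingLimit z →
      ∀ᵐ ω ∂μ, ∀ h : ℝ → ℝ, Monotone h → (∀ x, 0 < h x) →
        ((∀ δ : ℝ, 0 < δ → ∀ᶠ x : ℝ in atTop, ∀ H : ℝ, h x ≤ H → H ≤ x →
          |density (sieved z (fun p => A p ω)) x H - 1| ≤ δ) ↔
        Tendsto (fun x : ℝ => Real.log (h x) / Real.log (Real.log x)) atTop atTop)) ∧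
    -- the square-root law
    (∀ (Ω : Type) [MeasurableSpace Ω] (μ : Measure Ω) [IsProbabilityMeasure μ]
      (A : ℕ → Ω → ℕ), RandomClasses μ A → ∀ z : ℕ → ℕ, SharpSievingLimit z →
      ∀ᵐ ω ∂μ, ∀ ε : ℝ, 0 < ε → ∀ᶠ X : ℝ in atTop, ∀ x H : ℝ,
        X ≤ x → x ≤ 2 * X → 1 ≤ H → H ≤ X →
          |number (sieved z (fun p => A p ω)) x H - ∫ t in x..x + H, 1 / Real.log t| ≤
            X ^ ε * Real.sqrt H) ∧
    -- it is best possible
    (∀ (Ω : Type) [MeasurableSpace Ω] (μ : Measure Ω) [IsProbabilityMeasure μ]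
      (A : ℕ → Ω → ℕ), RandomClasses μ A →
      ∀ᵐ ω ∂μ, ∀ ε : ℝ, 0 < ε → ∀ᶠ X : ℝ in atTop, ∀ H : ℝ,
        X ^ ε < H → H < X ^ (1 / 2 - ε) → ∃ x : ℝ, X ≤ x ∧ x ≤ 2 * X ∧
          1 / 2 * Real.sqrt (H / Real.log X) ≤
            |number (sieved banksFordTao (fun p => A p ω)) x H -
              ∫ t in x..x + H, 1 / Real.log t|) := by
  have hR : ∀ {Ω : Type} [MeasurableSpace Ω] {μ : Measure Ω} {A : ℕ → Ω → ℕ},
      RandomClasses μ A → Pool.Agent.H532.RM.RandomClasses μ A := fun h =>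
    ⟨h.meas, h.indep, h.unif⟩
  simp only [maxSifted_eq, minSifted_eq]
  refine ⟨?_, ⟨Pool.Agent.H532.RM.zBFT_mono, Pool.Agent.H532.RM.zBFT_lim⟩,
    ⟨Pool.Agent.H532.SR.rt_zBFT.mono, Pool.Agent.H532.SR.rt_zBFT.rate⟩, ?_, ?_, ?_, ?_, ?_, ?_, ?_⟩
  · obtain ⟨μ, h1, h2⟩ := Pool.Agent.H532.RM.exists_randomClasses
    exact ⟨μ, h1, ⟨h2.meas, h2.indep, h2.unif⟩⟩
  · intro δ hδ
    have hd0 : 0 < min (δ / 2) (1 / 4) := lt_min (by linarith) (by norm_num)
    obtain ⟨K, κ, hK, hκ, hκ1, hmain⟩ := Pool.Agent.H532.RM.lowMain (min (δ / 2) (1 / 4)) hd0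
      (min_le_right _ _)
    have hd1 : min (δ / 2) (1 / 4) ≤ δ / 2 := min_le_left _ _
    refine ⟨K, κ, by linarith, hκ, ?_⟩
    intro Ω _ μ _ A hA z hz
    filter_upwards [hmain μ A (hR hA) z hz.mono hz.lim] with ω hω
    filter_upwards [hω, Real.tendsto_log_atTop.eventually_ge_atTop 1] with X hX hlX H hH1 hH2
    have hlX0 : 0 < Real.log X := by linarith
    have hH0 : 0 < H := lt_of_lt_of_le (by positivity) hH1
    have hlog : 0 ≤ Real.log (Real.log X ^ 2 / H) := by
      refine Real.log_nonneg ?_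
      rw [le_div_iff₀ hH0, one_mul]
      refine hH2.trans ?_
      have : 0 < Real.log X ^ 2 := by positivity
      nlinarith
    have hq : 0 ≤ Real.log X / Real.log (Real.log X ^ 2 / H) := div_nonneg hlX0.le hlog
    obtain ⟨h1, x, hx1, hx2, h2⟩ := hX H hH1 hH2
    refine ⟨fun x hx1 hx2 => ?_, x, hx1, hx2, ?_⟩
    · refine le_trans (h1 x hx1 hx2) ?_
      rw [mul_div_assoc]
      gcongr
      linarith
    · refine le_trans ?_ h2
      rw [mul_div_assoc]
      gcongr
      linarith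
  · intro δ hδ Ω _ μ _ A hA z hz
    exact Pool.Agent.H532.SR.uni δ hδ μ A (hR hA) z hz.mono hz.lim
  · intro N
    obtain ⟨c, hc, _, h⟩ := Pool.Agent.H532.RM.maier N
    exact ⟨c, hc, h⟩
  · exact Pool.Agent.H532.RM.rp_to_one
  · intro Ω _ μ _ A hA z hz
    exact Pool.Agent.H532.RM.threshold μ A (hR hA) z hz.mono hz.lim
  · intro Ω _ μ _ A hA z hz
    have hz' : Pool.Agent.H532.SR.Rt z := ⟨hz.mono, hz.rate⟩
    have hall : ∀ m : ℕ, ∀ᵐ ω ∂μ, ∀ᶠ X : ℝ in atTop, ∀ x H : ℝ,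
        X ≤ x → x ≤ 2 * X → 1 ≤ H → H ≤ X →
          |Pool.Agent.H532.SR.NC (Pool.Agent.H532.RM.RB z (fun p => A p ω)) x H -
            ∫ t in x..x + H, 1 / Real.log t| ≤ X ^ (1 / ((m : ℝ) + 1)) * Real.sqrt H := fun m =>
      Pool.Agent.H532.SR.short_ev (hR hA) hz' (by positivity)
    filter_upwards [ae_all_iff.2 hall] with ω hω
    intro ε hε
    obtain ⟨m, hm⟩ := exists_nat_one_div_lt hε
    filter_upwards [hω m, eventually_ge_atTop 1] with X hX hX1 x H hx1 hx2 hH1 hH2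
    refine (hX x H hx1 hx2 hH1 hH2).trans ?_
    have : X ^ (1 / ((m : ℝ) + 1)) ≤ X ^ ε := Real.rpow_le_rpow_of_exponent_le hX1 hm.le
    gcongr
  · intro Ω _ μ _ A hA
    exact Pool.Agent.H532.SR.low_ev (hR hA)

end Pool.Agent.Results.MP_31d0eb_nt.PhaseDiagram
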