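import Mathlib
import Pool.Agent.H532.RM.ThmA3
import Pool.Agent.H532.RM.Bft

/-!
# The asymptotic law in all short intervals for the semi-random sieve

Q1 asks whether `π(x, H) ∼ H / log x` uniformly in `x ^ ε ≤ H ≤ x`. The primes are what is left
after the sieve by the class `0` modulo `p` for all `p ≤ √x`. In the random model of Banks, Ford
and Tao (Large prime gaps and probabilistic models, Invent. Math. 2023) one removes from the
integers a random class `a_p` modulo `p` for every prime `p` up to the limit `z(n)` with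
`∏_{p ≤ z(n)} (1 - 1/p) ≈ 1 / log n`.

We consider the more general *semi-random sieve*: for the integers `n` of the dyadic block
`2^j ≤ n < 2^(j+1)` and the primes `p ≤ y_j` the removed class `b_j(p)` is prescribed, for instance
`b_j(p) = 0` as in the sieve of Eratosthenes, but it may be any class and it may depend on the
block; only for the primes `y_j < p ≤ z(n)` it is the random class `a_p`.

The theorem says that the analogue of Q1 holds almost surely as soon as `log y_j = o(j)`, that is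
`y = x^{o(1)}`. For instance the sieve of Eratosthenes by all primes up to `exp(log x / loglog x)`,
followed by the sieve by random classes for the larger primes, almost surely leaves
`(1 + o(1)) H / log x` integers in all intervals `(x, x + H]`, `x ^ ε ≤ H ≤ x`, whatever the
interval; and a quantitative form: the error is at most `δ` in all intervals with
`H ≥ (y + log x) ^ K(δ)`.
-/

open Finset MeasureTheory ProbabilityTheory Filter
open scoped ENNReal Topology

namespace Pool.Agent.Results.MP_31d0eb_nt.SemiRandomSieve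

/-- `A p`, `p` prime, are independent random variables and `A p` is uniformly distributed on
`{0, …, p - 1}`. -/
structure RandomClasses {Ω : Type} [MeasurableSpace Ω] (μ : Measure Ω) (A : ℕ → Ω → ℕ) :
    Prop where
  meas : ∀ p, Measurable (A p)
  indep : iIndepFun (fun p : Nat.Primes => A p) μ
  unif : ∀ p : ℕ, p.Prime → ∀ r < p, μ {ω | A p ω = r} = (p : ℝ≥0∞)⁻¹

/-- `V z = ∏_{p ≤ z} (1 - 1 / p)`. -/
noncomputable def V (z : ℕ) : ℝ := ∏ p ∈ (range (z + 1)).filter Nat.Prime, (1 - 1 / (p : ℝ))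

/-- The integers `n` are sieved by the primes up to `z n`; this leaves the density `1 / log n`. -/
structure SievingLimit (z : ℕ → ℕ) : Prop where
  mono : Monotone z
  lim : Tendsto (fun n : ℕ => V (z n) * Real.log n) atTop (𝓝 1)

/-- The sieving limit of Banks, Ford and Tao: the largest `z` with `V z ≥ 1 / log n`. -/
noncomputable def banksFordTao (n : ℕ) : ℕ := sSup {z : ℕ | 1 / Real.log n ≤ V z}

/-- The semi-random sieve. The integer `n` is in the block `j = Nat.log 2 n`, that is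
`2 ^ j ≤ n < 2 ^ (j + 1)`. For the primes `p ≤ z n` the removed class modulo `p` is `b j p` if
`p ≤ y j`, and `a p` if `p > y j`. -/
def sieved (z y : ℕ → ℕ) (b : ℕ → ℕ → ℕ) (a : ℕ → ℕ) : Set ℕ :=
  {n | ∀ p : ℕ, p.Prime → p ≤ z n →
    ¬ n ≡ (if p ≤ y (Nat.log 2 n) then b (Nat.log 2 n) p else a p) [MOD p]}

/-- `#{n ∈ R : x < n ≤ x + H} log x / H`. -/
noncomputable def density (R : Set ℕ) (x H : ℝ) : ℝ :=
  ({n : ℕ | n ∈ R ∧ x < n ∧ (n : ℝ) ≤ x + H}.ncard : ℝ) * Real.log x / H

/-- **The asymptotic law in all short intervals for the semi-random sieve.** -/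
theorem result :
    -- the model exists
    (∃ μ : Measure (ℕ → ℕ), IsProbabilityMeasure μ ∧ RandomClasses μ (fun p ω => ω p)) ∧
    SievingLimit banksFordTao ∧
    -- the sieve with arbitrary prescribed classes for `p ≤ y j`, `log (y j) = o(j)`
    (∀ (Ω : Type) [MeasurableSpace Ω] (μ : Measure Ω) [IsProbabilityMeasure μ]
      (A : ℕ → Ω → ℕ), RandomClasses μ A → ∀ z : ℕ → ℕ, SievingLimit z →
      ∀ (y : ℕ → ℕ) (b : ℕ → ℕ → ℕ),
      Tendsto (fun j : ℕ => Real.log (y j) / j) atTop (𝓝 0) →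
      ∀ᵐ ω ∂μ, ∀ ε : ℝ, 0 < ε → ∀ δ : ℝ, 0 < δ → ∀ᶠ x : ℝ in atTop, ∀ H : ℝ,
        x ^ ε ≤ H → H ≤ x → |density (sieved z y b (fun p => A p ω)) x H - 1| ≤ δ) ∧
    -- the quantitative form, for arbitrary `y`
    (∀ δ : ℝ, 0 < δ → ∃ K : ℕ, ∀ (Ω : Type) [MeasurableSpace Ω] (μ : Measure Ω)
      [IsProbabilityMeasure μ] (A : ℕ → Ω → ℕ), RandomClasses μ A → ∀ z : ℕ → ℕ,
      SievingLimit z → ∀ (y : ℕ → ℕ) (b : ℕ → ℕ → ℕ),
      ∀ᵐ ω ∂μ, ∀ᶠ x : ℝ in atTop, ∀ H : ℝ,
        ((y (Nat.log 2 ⌊x⌋₊) : ℝ) + y (Nat.log 2 ⌊x⌋₊ + 1) + Real.log x) ^ K ≤ H → H ≤ x →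
        |density (sieved z y b (fun p => A p ω)) x H - 1| ≤ δ) := by
  have hR : ∀ {Ω : Type} [MeasurableSpace Ω] {μ : Measure Ω} {A : ℕ → Ω → ℕ},
      RandomClasses μ A → Pool.Agent.H532.RM.RandomClasses μ A := fun h =>
    ⟨h.meas, h.indep, h.unif⟩
  refine ⟨?_, ⟨Pool.Agent.H532.RM.zBFT_mono, Pool.Agent.H532.RM.zBFT_lim⟩, ?_, ?_⟩
  · obtain ⟨μ, h1, h2⟩ := Pool.Agent.H532.RM.exists_randomClasses
    exact ⟨μ, h1, ⟨h2.meas, h2.indep, h2.unif⟩⟩
  · intro Ω _ μ _ A hA z hz y b hy
    exact Pool.Agent.H532.RM.thmA_eps μ A (hR hA) z hz.mono hz.lim y b hy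
  · intro δ hδ
    obtain ⟨K, hK⟩ := Pool.Agent.H532.RM.thmA δ hδ
    refine ⟨K, ?_⟩
    intro Ω _ μ _ A hA z hz y b
    exact hK μ A (hR hA) z hz.mono hz.lim y b

end Pool.Agent.Results.MP_31d0eb_nt.SemiRandomSieve
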